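import Pool.Agent.Q261.HypMain

/-!
# 2-adic integrality of quotients of Gauss hypergeometric series

All coefficients of `₂F₁(3/4+a, 3/4+b; 3/2+c; 4t) / ₂F₁(1/4+d, 1/4+e; 1/2+f; 4t)` are rational
numbers with odd denominator.

Sketch.  Write `F(A,B,g) = ₂F₁(A/4, B/4; g/2; 4t)`.  The Riccati equation shows that
`2F'/F` has 2-integral coefficients when `A, B` are integers and `g` is odd; the contiguity
relations then show that shifting `A`, `B` by `4` or `g` by `2` multiplies `F` by a unit of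
`ℤ_(2)[[t]]`.  This reduces the statement to `N/D` with `N = F(3,3,3)`, `D = F(1,1,1)`.  One has
`DN = c · ₃F₂(1/2,1/2,1/2;3/4,5/4;-4t²c²)` with `c = (1-4t)^{-1/2}`, and the Wronskian gives
`2t (N/D)'/(N/D) = c²/(DN) - 1`; hence `N/D` is the Catalan series times `exp(2G)` for an integral
series `G`.
-/

set_option autoImplicit false

namespace Pool.Agent.Results.MP_18c163_nt.QuotientIntegral

open PowerSeries

/-- the Pochhammer symbol `(x)_n = x (x + 1) ⋯ (x + n - 1)` -/
def poch (x : ℚ) (n : ℕ) : ℚ := ∏ i ∈ Finset.range n, (x + i)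

/-- the power series `₂F₁(α, β; γ; 4t)` in `t` -/
noncomputable def gauss4 (α β γ : ℚ) : ℚ⟦X⟧ :=
  PowerSeries.mk fun n => poch α n * poch β n / (poch γ n * (n.factorial : ℚ)) * 4 ^ n

/-- `N(t) = ₂F₁(3/4 + a, 3/4 + b; 3/2 + c; 4t)` -/
noncomputable def N (a b c : ℕ) : ℚ⟦X⟧ := gauss4 (3 / 4 + a) (3 / 4 + b) (3 / 2 + c)

/-- `D(t) = ₂F₁(1/4 + d, 1/4 + e; 1/2 + f; 4t)` -/
noncomputable def D (d e f : ℕ) : ℚ⟦X⟧ := gauss4 (1 / 4 + d) (1 / 4 + e) (1 / 2 + f)

/-- the quotient `Q = N / D` -/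
noncomputable def Q (a b c d e f : ℕ) : ℚ⟦X⟧ := N a b c * (D d e f)⁻¹

theorem gauss4_eq (A B g : ℚ) (hg : Q261.HypSer.Good g) :
    gauss4 (A / 4) (B / 4) (g / 2) = Q261.HypSer.F A B g := by
  ext n
  rw [gauss4, coeff_mk, Q261.HypSer.coeff_F]
  induction n with
  | zero => simp [poch, Q261.HypSer.hc_zero]
  | succ n ih =>
    unfold poch Q261.HypSer.hc at ih ⊢
    rw [Finset.prod_range_succ, Finset.prod_range_succ, Finset.prod_range_succ,
      Finset.prod_range_succ, ← ih, Nat.factorial_succ, pow_succ]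
    have h1 : ∏ x ∈ Finset.range n, (g / 2 + (x : ℚ)) ≠ 0 := by
      rw [Finset.prod_ne_zero_iff]
      intro j _ h
      apply hg j
      linarith
    have h2 : g / 2 + (n : ℚ) ≠ 0 := by
      intro h
      apply hg n
      linarith
    have h3 : ((n : ℚ) + 1) ≠ 0 := by positivity
    have h4 : g + 2 * (n : ℚ) ≠ 0 := hg n
    have h5 : (n.factorial : ℚ) ≠ 0 := by exact_mod_cast Nat.factorial_ne_zero n
    generalize ∏ x ∈ Finset.range n, (g / 2 + (x : ℚ)) = P1 at *
    generalize ∏ x ∈ Finset.range n, (A / 4 + (x : ℚ)) = P2 at *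
    generalize ∏ x ∈ Finset.range n, (B / 4 + (x : ℚ)) = P3 at *
    push_cast
    field_simp
    ring

theorem good_nat (g : ℕ) (hg : 0 < g) : Q261.HypSer.Good (g : ℚ) := by
  intro n
  have : (0 : ℚ) < (g : ℚ) := by exact_mod_cast hg
  positivity

theorem N_eq (a b c : ℕ) : N a b c =
    Q261.HypSer.F ((3 + 4 * a : ℕ) : ℚ) ((3 + 4 * b : ℕ) : ℚ) ((3 + 2 * c : ℕ) : ℚ) := by
  rw [← gauss4_eq _ _ _ (good_nat _ (by omega)), N]
  congr 1 <;> push_cast <;> ring

theorem D_eq (a b c : ℕ) : D a b c =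
    Q261.HypSer.F ((1 + 4 * a : ℕ) : ℚ) ((1 + 4 * b : ℕ) : ℚ) ((1 + 2 * c : ℕ) : ℚ) := by
  rw [← gauss4_eq _ _ _ (good_nat _ (by omega)), D]
  congr 1 <;> push_cast <;> ring

/-- **Q1.**  For all `a, b, c, d, e, f` the quotient `Q = N/D` is the power series with `D Q = N`,
and each of its coefficients has odd denominator. -/
theorem result (a b c d e f : ℕ) :
    D d e f * Q a b c d e f = N a b c ∧
      ∀ n : ℕ, Odd (coeff n (Q a b c d e f)).den := by
  constructor
  · have h : constantCoeff (D d e f) ≠ 0 := by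
      rw [D_eq, Q261.HypSer.const_F]; exact one_ne_zero
    have h1 : D d e f * (D d e f)⁻¹ = 1 := PowerSeries.mul_inv_cancel _ h
    rw [Q]
    linear_combination (N a b c) * h1
  · intro n
    have h := Q261.HypMain.main a b c d e f
    rw [Q, N_eq, D_eq]
    exact h n

end Pool.Agent.Results.MP_18c163_nt.QuotientIntegral
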